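import Pool.Agent.Helper64.AS.Defs

/-!
# Y4: removal of the space shifts (translation invariance in the space variables)
-/

set_option autoImplicit false

namespace Stx

open Finset MeasureTheory
open Pool.Agent.Helper64.AS (FF cube)

namespace Beta62

/-- splitting off the first coordinate -/
lemma split (r : ℕ) (g : (Fin (r + 1) → ℝ) → ℝ) (hg : Continuous g) :
    ∫ x in Set.Icc (0 : Fin (r + 1) → ℝ) (fun _ => 2 * Real.pi), g x =
      ∫ t in Set.Icc (0 : ℝ) (2 * Real.pi),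
        ∫ y in Set.Icc (0 : Fin r → ℝ) (fun _ => 2 * Real.pi),
          g (Fin.cons (α := fun _ => ℝ) t y) := by
  set e : ℝ × (Fin r → ℝ) ≃ᵐ (Fin (r + 1) → ℝ) :=
    (MeasurableEquiv.piFinSuccAbove (fun _ => ℝ) 0).symm with he
  have hem : MeasurePreserving e :=
    (volume_preserving_piFinSuccAbove (fun _ : Fin (r + 1) => ℝ) 0).symm _
  have hev : ∀ t y, e (t, y) = Fin.cons (α := fun _ => ℝ) t y := by
    intro t y
    rw [he]
    funext i
    refine Fin.cases ?_ (fun j => ?_) i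
    · rfl
    · rfl
  have hpre : e ⁻¹' Set.Icc (0 : Fin (r + 1) → ℝ) (fun _ => 2 * Real.pi) =
      Set.Icc (0 : ℝ) (2 * Real.pi) ×ˢ Set.Icc (0 : Fin r → ℝ) (fun _ => 2 * Real.pi) := by
    ext ⟨t, y⟩
    simp only [Set.mem_preimage, hev, Set.mem_prod, Set.mem_Icc, Pi.le_def, Pi.zero_apply]
    constructor
    · rintro ⟨h1, h2⟩
      exact ⟨⟨h1 0, h2 0⟩, fun i => h1 i.succ, fun i => h2 i.succ⟩
    · rintro ⟨⟨h1, h2⟩, h3, h4⟩
      refine ⟨fun i => ?_, fun i => ?_⟩
      · refine Fin.cases h1 (fun j => h3 j) i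
      · refine Fin.cases h2 (fun j => h4 j) i
  have hec : Continuous fun p : ℝ × (Fin r → ℝ) => e p := by
    have : (fun p : ℝ × (Fin r → ℝ) => e p) =
        fun p => Fin.cons (α := fun _ => ℝ) p.1 p.2 := by
      funext p
      exact hev p.1 p.2
    rw [this]
    refine continuous_pi fun i => ?_
    refine Fin.cases ?_ (fun j => ?_) i
    · exact continuous_fst
    · exact (continuous_apply j).comp continuous_snd
  rw [← hem.map_eq, setIntegral_map_equiv, hpre, Measure.volume_eq_prod, setIntegral_prod]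
  · simp only [hev]
  · refine ContinuousOn.integrableOn_compact ?_ (hg.comp hec).continuousOn
    exact isCompact_Icc.prod isCompact_Icc

/-- translation invariance of the integral over a period cube -/
lemma shift_pi (r : ℕ) : ∀ h : (Fin r → ℝ) → ℝ, Continuous h →
    (∀ (k : Fin r → ℤ) (x : Fin r → ℝ), h (fun l => x l + 2 * Real.pi * k l) = h x) →
    ∀ c : Fin r → ℝ, ∫ x in Set.Icc (0 : Fin r → ℝ) (fun _ => 2 * Real.pi), h (x - c) =
      ∫ x in Set.Icc (0 : Fin r → ℝ) (fun _ => 2 * Real.pi), h x := by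
  induction r with
  | zero =>
    intro h _ _ c
    refine integral_congr_ae (Filter.Eventually.of_forall fun x => ?_)
    show h (x - c) = h x
    rw [Subsingleton.elim (x - c) x]
  | succ r ih =>
    intro h hc hp c
    have hcons : ∀ s : ℝ, Continuous fun y : Fin r → ℝ => Fin.cons (α := fun _ => ℝ) s y := by
      intro s
      refine continuous_pi fun i => ?_
      refine Fin.cases ?_ (fun j => ?_) i
      · exact continuous_const
      · exact continuous_apply j
    have h1 : ∀ t : ℝ, ∫ y in Set.Icc (0 : Fin r → ℝ) (fun _ => 2 * Real.pi),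
        h (Fin.cons (α := fun _ => ℝ) t y - c) =
        ∫ y in Set.Icc (0 : Fin r → ℝ) (fun _ => 2 * Real.pi),
          h (Fin.cons (α := fun _ => ℝ) (t - c 0) y) := by
      intro t
      rw [← ih (fun y => h (Fin.cons (α := fun _ => ℝ) (t - c 0) y)) (hc.comp (hcons _)) ?_
        (fun l => c l.succ)]
      · refine integral_congr_ae (Filter.Eventually.of_forall fun y => ?_)
        show h _ = h _
        congr 1
        funext i
        refine Fin.cases ?_ (fun j => ?_) i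
        · rfl
        · rfl
      · intro k x
        rw [← hp (Fin.cons (α := fun _ => ℤ) 0 k) (Fin.cons (α := fun _ => ℝ) (t - c 0) x)]
        congr 1
        funext i
        refine Fin.cases ?_ (fun j => ?_) i
        · simp
        · rfl
    rw [split r (fun x => h (x - c)) (hc.comp (continuous_id.sub continuous_const)), split r h hc]
    simp only [h1]
    set H : ℝ → ℝ := fun s => ∫ y in Set.Icc (0 : Fin r → ℝ) (fun _ => 2 * Real.pi),
      h (Fin.cons (α := fun _ => ℝ) s y) with hH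
    have hper : Function.Periodic H (2 * Real.pi) := by
      intro s
      rw [hH]
      refine integral_congr_ae (Filter.Eventually.of_forall fun y => ?_)
      show h _ = h _
      rw [← hp (Fin.cons (α := fun _ => ℤ) 1 0) (Fin.cons (α := fun _ => ℝ) s y)]
      congr 1
      funext i
      refine Fin.cases ?_ (fun j => ?_) i
      · simp
      · simp
    show ∫ t in Set.Icc (0 : ℝ) (2 * Real.pi), H (t - c 0) = ∫ t in Set.Icc (0 : ℝ) (2 * Real.pi), H t
    rw [integral_Icc_eq_integral_Ioc, integral_Icc_eq_integral_Ioc,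
      ← intervalIntegral.integral_of_le Real.two_pi_pos.le,
      ← intervalIntegral.integral_of_le Real.two_pi_pos.le,
      intervalIntegral.integral_comp_sub_right (fun s => H s)]
    have := hper.intervalIntegral_add_eq (0 - c 0) 0
    rw [zero_add] at this
    rw [← this]
    congr 1
    ring

/-- translation invariance of the integral over the cube, by a shift depending on the time -/
theorem cube_shift (r : ℕ) (g : ℝ → (Fin r → ℝ) → ℝ)
    (hg : Continuous fun z : ℝ × (Fin r → ℝ) => g z.1 z.2)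
    (hp : ∀ (t : ℝ) (k : Fin r → ℤ) (x : Fin r → ℝ), g t (fun l => x l + 2 * Real.pi * k l) = g t x)
    (φ : ℝ → Fin r → ℝ) (hφ : Continuous φ) :
    ∫ z in cube r, g z.1 (z.2 - φ z.1) = ∫ z in cube r, g z.1 z.2 := by
  have hg' : Continuous fun z : ℝ × (Fin r → ℝ) => g z.1 (z.2 - φ z.1) :=
    hg.comp (f := fun z : ℝ × (Fin r → ℝ) => (z.1, z.2 - φ z.1))
      (continuous_fst.prodMk (continuous_snd.sub (hφ.comp continuous_fst)))
  have hcomp : IsCompact (Set.Icc (0 : ℝ) (2 * Real.pi) ×ˢ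
      Set.Icc (0 : Fin r → ℝ) (fun _ => 2 * Real.pi)) := isCompact_Icc.prod isCompact_Icc
  unfold cube
  rw [Measure.volume_eq_prod, setIntegral_prod, setIntegral_prod]
  · refine integral_congr_ae (Filter.Eventually.of_forall fun t => ?_)
    refine shift_pi r (g t) ?_ (hp t) (φ t)
    exact hg.comp (f := fun x : Fin r → ℝ => (t, x)) (continuous_const.prodMk continuous_id)
  · exact ContinuousOn.integrableOn_compact hcomp hg.continuousOn
  · exact ContinuousOn.integrableOn_compact hcomp hg'.continuousOn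

lemma continuous_FF (r : ℕ) (S : Finset (ℤ × (Fin r → ℤ))) (a : ℤ × (Fin r → ℤ) → ℂ) :
    Continuous fun z : ℝ × (Fin r → ℝ) => FF r S a z.1 z.2 := by
  unfold FF
  refine continuous_finsetSum _ fun ξ _ => ?_
  refine continuous_const.mul (Complex.continuous_exp.comp ?_)
  refine Continuous.mul (Complex.continuous_ofReal.comp ?_) continuous_const
  refine Continuous.sub (continuous_finsetSum _ fun l _ => ?_) ?_
  · exact ((continuous_apply l).comp continuous_snd).mul continuous_const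
  · exact continuous_fst.mul continuous_const

lemma periodic_FF (r : ℕ) (S : Finset (ℤ × (Fin r → ℤ))) (a : ℤ × (Fin r → ℤ) → ℂ) (t : ℝ)
    (k : Fin r → ℤ) (x : Fin r → ℝ) :
    FF r S a t (fun l => x l + 2 * Real.pi * k l) = FF r S a t x := by
  unfold FF
  refine sum_congr rfl fun ξ _ => ?_
  congr 1
  have h1 : (((∑ l, (x l + 2 * Real.pi * k l) * ξ.2 l -
      t * ((ξ.1 : ℝ) ^ 2 + ∑ l, (ξ.2 l : ℝ) ^ 2) : ℝ) : ℂ) * Complex.I) =
      (((∑ l, x l * ξ.2 l - t * ((ξ.1 : ℝ) ^ 2 + ∑ l, (ξ.2 l : ℝ) ^ 2) : ℝ) : ℂ) * Complex.I) +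
        ((∑ l, k l * ξ.2 l : ℤ) : ℂ) * (2 * Real.pi * Complex.I) := by
    have h2 : ∑ l, (x l + 2 * Real.pi * k l) * (ξ.2 l : ℝ) = ∑ l, x l * ξ.2 l +
        ((∑ l, k l * ξ.2 l : ℤ) : ℝ) * (2 * Real.pi) := by
      push_cast
      rw [sum_mul, ← sum_add_distrib]
      exact sum_congr rfl fun l _ => by ring
    rw [h2]
    push_cast
    ring
  rw [h1, Complex.exp_add, Complex.exp_int_mul_two_pi_mul_I, mul_one]

/-- the shifted corner -/
noncomputable def nb (r : ℕ) (b : Fin (r + 1) → ℝ) (β : Fin r → ℤ) : Fin (r + 1) → ℝ :=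
  Fin.cons (α := fun _ => ℝ) (b 0) (fun l => b l.succ - β l)

lemma mem_box (r : ℕ) (b : Fin (r + 1) → ℝ) (N : ℝ) (ξ : ℤ × (Fin r → ℤ)) :
    ξ ∈ Pool.Agent.Helper64.AS.box r b N ↔ (⌈b 0⌉ ≤ ξ.1 ∧ ξ.1 ≤ ⌊b 0 + N⌋) ∧
      ∀ l : Fin r, ⌈b l.succ⌉ ≤ ξ.2 l ∧ ξ.2 l ≤ ⌊b l.succ + N⌋ := by
  unfold Pool.Agent.Helper64.AS.box
  rw [mem_product, mem_Icc, Fintype.mem_piFinset]
  simp only [mem_Icc]

lemma mem_box_shift (r : ℕ) (b : Fin (r + 1) → ℝ) (N : ℝ) (β : Fin r → ℤ) (ξ : ℤ × (Fin r → ℤ)) :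
    ξ ∈ Pool.Agent.Helper64.AS.box r (nb r b β) N ↔
      (ξ.1, fun l => ξ.2 l + β l) ∈ Pool.Agent.Helper64.AS.box r b N := by
  rw [mem_box, mem_box]
  have e0 : nb r b β 0 = b 0 := rfl
  have e1 : ∀ l : Fin r, nb r b β l.succ = b l.succ - β l := fun l => rfl
  simp only [e0, e1]
  refine and_congr Iff.rfl (forall_congr' fun l => ?_)
  have h1 : ⌈b l.succ - (β l : ℝ)⌉ = ⌈b l.succ⌉ - β l := Int.ceil_sub_intCast _ _
  have h2 : ⌊b l.succ - (β l : ℝ) + N⌋ = ⌊b l.succ + N⌋ - β l := by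
    rw [← Int.floor_sub_intCast]
    congr 1
    ring
  rw [h1, h2]
  constructor
  · rintro ⟨h3, h4⟩
    constructor <;> omega
  · rintro ⟨h3, h4⟩
    constructor <;> omega

lemma sum_box_shift {E : Type*} [AddCommMonoid E] (r : ℕ) (b : Fin (r + 1) → ℝ) (N : ℝ)
    (β : Fin r → ℤ) (f : ℤ × (Fin r → ℤ) → E) :
    ∑ ξ ∈ Pool.Agent.Helper64.AS.box r (nb r b β) N, f (ξ.1, fun l => ξ.2 l + β l) =
      ∑ ξ ∈ Pool.Agent.Helper64.AS.box r b N, f ξ := by
  refine sum_nbij' (fun ξ => (ξ.1, fun l => ξ.2 l + β l)) (fun ξ => (ξ.1, fun l => ξ.2 l - β l))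
    ?_ ?_ ?_ ?_ ?_
  · intro ξ hξ
    exact (mem_box_shift r b N β ξ).mp hξ
  · intro ξ hξ
    rw [mem_box_shift]
    have : ((ξ.1, fun l => ξ.2 l - β l + β l) : ℤ × (Fin r → ℤ)) = ξ := by
      refine Prod.ext rfl (funext fun l => ?_)
      show ξ.2 l - β l + β l = ξ.2 l
      ring
    show ((ξ.1, fun l => ξ.2 l - β l + β l) : ℤ × (Fin r → ℤ)) ∈ _
    rw [this]
    exact hξ
  · intro ξ _
    refine Prod.ext rfl (funext fun l => ?_)
    show ξ.2 l + β l - β l = ξ.2 l
    ring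
  · intro ξ _
    refine Prod.ext rfl (funext fun l => ?_)
    show ξ.2 l - β l + β l = ξ.2 l
    ring
  · intro ξ _
    rfl

lemma FF_shift (r : ℕ) (b : Fin (r + 1) → ℝ) (N : ℝ) (a : ℤ × (Fin r → ℤ) → ℂ) (β : Fin r → ℤ)
    (t : ℝ) (x : Fin r → ℝ) :
    FF r (Pool.Agent.Helper64.AS.box r b N) a t x =
      Complex.exp (((∑ l, x l * β l - t * ∑ l, (β l : ℝ) ^ 2 : ℝ) : ℂ) * Complex.I) *
      FF r (Pool.Agent.Helper64.AS.box r (nb r b β) N) (fun ξ => a (ξ.1, fun l => ξ.2 l + β l)) t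
        (x - fun l => 2 * t * β l) := by
  unfold FF
  rw [← sum_box_shift r b N β, mul_sum]
  refine sum_congr rfl fun ξ _ => ?_
  rw [mul_left_comm, ← Complex.exp_add, ← add_mul, ← Complex.ofReal_add]
  congr 4
  simp only [Pi.sub_apply]
  push_cast
  have h1 : ∑ l, x l * ((ξ.2 l : ℝ) + β l) = ∑ l, x l * β l + ∑ l, x l * ξ.2 l := by
    rw [← sum_add_distrib]
    exact sum_congr rfl fun l _ => by ring
  have h2 : ∑ l, ((ξ.2 l : ℝ) + β l) ^ 2 = ∑ l, (β l : ℝ) ^ 2 + ∑ l, 2 * (β l : ℝ) * ξ.2 l +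
      ∑ l, (ξ.2 l : ℝ) ^ 2 := by
    rw [← sum_add_distrib, ← sum_add_distrib]
    exact sum_congr rfl fun l _ => by ring
  have h3 : ∑ l, (x l - 2 * t * β l) * (ξ.2 l : ℝ) = ∑ l, x l * ξ.2 l -
      t * ∑ l, 2 * (β l : ℝ) * ξ.2 l := by
    rw [mul_sum, ← sum_sub_distrib]
    exact sum_congr rfl fun l _ => by ring
  rw [h1, h2, h3]
  ring

end Beta62

open Beta62

/-- the space shifts can be moved by integer vectors -/
theorem remove_beta (r : ℕ) (p : ℝ) (hp : 0 ≤ p) (b : Fin (r + 1) → ℝ) (N : ℝ)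
    (a : ℤ × (Fin r → ℤ) → ℂ) (β : Fin r → ℤ) :
    ∫ z in cube r, ‖FF r (Pool.Agent.Helper64.AS.box r b N) a z.1 z.2‖ ^ p =
      ∫ z in cube r, ‖FF r (Pool.Agent.Helper64.AS.box r
        (Fin.cons (α := fun _ => ℝ) (b 0) (fun l => b l.succ - β l)) N)
        (fun ξ => a (ξ.1, fun l => ξ.2 l + β l)) z.1 z.2‖ ^ p := by
  have h1 := cube_shift r (fun t x => ‖FF r (Pool.Agent.Helper64.AS.box r
        (Fin.cons (α := fun _ => ℝ) (b 0) (fun l => b l.succ - β l)) N)
        (fun ξ => a (ξ.1, fun l => ξ.2 l + β l)) t x‖ ^ p)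
    ((continuous_FF r _ _).norm.rpow_const fun _ => Or.inr hp)
    (fun t k x => by simp only [periodic_FF]) (fun t l => 2 * t * β l)
    (continuous_pi fun l => (continuous_const.mul continuous_id).mul continuous_const)
  rw [← h1]
  refine integral_congr_ae (Filter.Eventually.of_forall fun z => ?_)
  show ‖FF r (Pool.Agent.Helper64.AS.box r b N) a z.1 z.2‖ ^ p = _
  rw [FF_shift r b N a β z.1 z.2, norm_mul, Complex.norm_exp_ofReal_mul_I, one_mul]
  rfl

theorem remove_beta_sum (r : ℕ) (b : Fin (r + 1) → ℝ) (N : ℝ)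
    (a : ℤ × (Fin r → ℤ) → ℂ) (β : Fin r → ℤ) :
    ∑ ξ ∈ Pool.Agent.Helper64.AS.box r b N, ‖a ξ‖ ^ 2 =
      ∑ ξ ∈ Pool.Agent.Helper64.AS.box r
        (Fin.cons (α := fun _ => ℝ) (b 0) (fun l => b l.succ - β l)) N,
        ‖a (ξ.1, fun l => ξ.2 l + β l)‖ ^ 2 :=
  (sum_box_shift r b N β (fun ξ => ‖a ξ‖ ^ 2)).symm

end Stx
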