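import Pool.Agent.Helper89.Stx.Defs
import Pool.Agent.Helper64.AS.Defs

/-!
# Y1: transfer of level set bounds from the finite model to the cube
-/

set_option autoImplicit false

namespace Stx

open Finset MeasureTheory Stz
open Pool.Agent.Helper64.AS (FF cube box)

namespace LevReal

/-! ### Tiling of the cube -/

/-- the small cube -/
def sq (r A : ℕ) : Set (ℝ × (Fin r → ℝ)) :=
  Set.Icc 0 (2 * Real.pi / A) ×ˢ Set.Icc 0 (fun _ => 2 * Real.pi / A)

/-- the grid vectors -/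
noncomputable def gv {r A : ℕ} (w : ZMod A × (Fin r → ZMod A)) : ℝ × (Fin r → ℝ) :=
  (2 * Real.pi * ((-w.1).val : ℝ) / A, fun l => 2 * Real.pi * ((w.2 l).val : ℝ) / A)

lemma exists_grid (A : ℕ) [NeZero A] (x : ℝ) (h0 : 0 ≤ x) (h1 : x ≤ 2 * Real.pi) :
    ∃ k : ℕ, k < A ∧ 0 ≤ x - 2 * Real.pi * k / A ∧ x - 2 * Real.pi * k / A ≤ 2 * Real.pi / A := by
  have hpi : (0 : ℝ) < 2 * Real.pi := by have := Real.pi_pos; positivity
  have hA0 : 0 < A := Nat.pos_of_ne_zero (NeZero.ne A)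
  have hA : (0 : ℝ) < A := by exact_mod_cast hA0
  have hy0 : 0 ≤ x * A / (2 * Real.pi) := by positivity
  have hyA : x * A / (2 * Real.pi) ≤ A := by
    rw [div_le_iff₀ hpi]
    nlinarith
  rcases lt_or_ge (x * A / (2 * Real.pi)) A with h | h
  · refine ⟨⌊x * A / (2 * Real.pi)⌋₊, ?_, ?_, ?_⟩
    · exact (Nat.floor_lt hy0).mpr h
    · have h2 := Nat.floor_le hy0
      rw [sub_nonneg, div_le_iff₀ hA]
      rw [le_div_iff₀ hpi] at h2
      linarith
    · have h2 := Nat.lt_floor_add_one (x * A / (2 * Real.pi))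
      rw [div_lt_iff₀ hpi] at h2
      rw [sub_le_iff_le_add, ← add_div, le_div_iff₀ hA]
      linarith
  · have he : x * A / (2 * Real.pi) = A := le_antisymm hyA h
    rw [div_eq_iff hpi.ne'] at he
    have hx : x = 2 * Real.pi := by
      have : x * A = 2 * Real.pi * A := by linarith
      exact mul_right_cancel₀ hA.ne' this
    refine ⟨A - 1, by omega, ?_, ?_⟩
    · rw [sub_nonneg, div_le_iff₀ hA, hx]
      have : ((A - 1 : ℕ) : ℝ) ≤ A := by exact_mod_cast Nat.sub_le A 1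
      exact mul_le_mul_of_nonneg_left this hpi.le
    · rw [sub_le_iff_le_add, ← add_div, le_div_iff₀ hA, hx]
      have : (A : ℝ) = ((A - 1 : ℕ) : ℝ) + 1 := by
        have : A = (A - 1) + 1 := by omega
        exact_mod_cast this
      nlinarith

lemma cover (r A : ℕ) [NeZero A] (z : ℝ × (Fin r → ℝ)) (hz : z ∈ cube r) :
    ∃ w : ZMod A × (Fin r → ZMod A), z - gv w ∈ sq r A := by
  obtain ⟨⟨h1, h2⟩, h3, h4⟩ := hz
  obtain ⟨k, hk, hk1, hk2⟩ := exists_grid A z.1 h1 h2
  have hx : ∀ l, ∃ k : ℕ, k < A ∧ 0 ≤ z.2 l - 2 * Real.pi * k / A ∧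
      z.2 l - 2 * Real.pi * k / A ≤ 2 * Real.pi / A := fun l => exists_grid A (z.2 l) (h3 l) (h4 l)
  choose κ hκ hκ1 hκ2 using hx
  refine ⟨(-(k : ZMod A), fun l => (κ l : ZMod A)), ?_⟩
  have e1 : ((-(-(k : ZMod A))).val : ℝ) = k := by
    rw [neg_neg, ZMod.val_natCast, Nat.mod_eq_of_lt hk]
  have e2 : ∀ l, (((κ l : ZMod A)).val : ℝ) = κ l := by
    intro l
    rw [ZMod.val_natCast, Nat.mod_eq_of_lt (hκ l)]
  refine ⟨⟨?_, ?_⟩, ?_, ?_⟩
  · show 0 ≤ z.1 - 2 * Real.pi * ((-(-(k : ZMod A))).val : ℝ) / A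
    rw [e1]
    exact hk1
  · show z.1 - 2 * Real.pi * ((-(-(k : ZMod A))).val : ℝ) / A ≤ 2 * Real.pi / A
    rw [e1]
    exact hk2
  · intro l
    show 0 ≤ z.2 l - 2 * Real.pi * (((κ l : ZMod A)).val : ℝ) / A
    rw [e2]
    exact hκ1 l
  · intro l
    show z.2 l - 2 * Real.pi * (((κ l : ZMod A)).val : ℝ) / A ≤ 2 * Real.pi / A
    rw [e2]
    exact hκ2 l

lemma vol_sq (r A : ℕ) [NeZero A] :
    volume (sq r A) = ENNReal.ofReal ((2 * Real.pi / A) ^ (r + 1)) := by
  have hpi : (0 : ℝ) < 2 * Real.pi := by have := Real.pi_pos; positivity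
  have hA0 : 0 < A := Nat.pos_of_ne_zero (NeZero.ne A)
  have hA : (0 : ℝ) < A := by exact_mod_cast hA0
  unfold sq
  rw [Measure.volume_eq_prod, Measure.prod_prod, Real.volume_Icc, Real.volume_Icc_pi]
  simp only [Pi.zero_apply, sub_zero, prod_const, card_univ, Fintype.card_fin]
  rw [← ENNReal.ofReal_pow (by positivity), ← ENNReal.ofReal_mul (by positivity), pow_succ']

lemma tile (r A : ℕ) [NeZero A] (X : Set (ℝ × (Fin r → ℝ))) (hX : MeasurableSet X) (B : ℝ)
    (hB : 0 ≤ B)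
    (h : ∀ z : ℝ × (Fin r → ℝ), ∀ s : Finset (ZMod A × (Fin r → ZMod A)),
      (∀ w ∈ s, z + gv w ∈ X) → (s.card : ℝ) ≤ (A : ℝ) ^ (r + 1) * B) :
    volume (cube r ∩ X) ≤ ENNReal.ofReal ((2 * Real.pi) ^ (r + 1) * B) := by
  classical
  have hpi : (0 : ℝ) < 2 * Real.pi := by have := Real.pi_pos; positivity
  have hA0 : 0 < A := Nat.pos_of_ne_zero (NeZero.ne A)
  have hA : (0 : ℝ) < A := by exact_mod_cast hA0
  have hsqm : MeasurableSet (sq r A) := measurableSet_Icc.prod measurableSet_Icc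
  have h1 : cube r ∩ X ⊆ ⋃ w : ZMod A × (Fin r → ZMod A),
      (fun z => z - gv w) ⁻¹' (sq r A ∩ {z | z + gv w ∈ X}) := by
    rintro z ⟨hz, hzX⟩
    obtain ⟨w, hw⟩ := cover r A z hz
    refine Set.mem_iUnion.mpr ⟨w, hw, ?_⟩
    show z - gv w + gv w ∈ X
    rwa [sub_add_cancel]
  have hm : ∀ w : ZMod A × (Fin r → ZMod A), MeasurableSet {z : ℝ × (Fin r → ℝ) | z + gv w ∈ X} :=
    fun w => (measurable_id.add_const (gv w)) hX
  calc volume (cube r ∩ X) ≤ volume (⋃ w : ZMod A × (Fin r → ZMod A),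
      (fun z => z - gv w) ⁻¹' (sq r A ∩ {z | z + gv w ∈ X})) := measure_mono h1
    _ ≤ ∑ w : ZMod A × (Fin r → ZMod A),
        volume ((fun z => z - gv w) ⁻¹' (sq r A ∩ {z | z + gv w ∈ X})) :=
        measure_iUnion_fintype_le _ _
    _ = ∑ w : ZMod A × (Fin r → ZMod A), volume (sq r A ∩ {z | z + gv w ∈ X}) := by
        refine sum_congr rfl fun w _ => ?_
        have hfun : (fun z : ℝ × (Fin r → ℝ) => z - gv w) = fun z => -gv w + z := by
          funext z
          exact sub_eq_neg_add z (gv w)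
        rw [hfun]
        have : (volume : Measure (ℝ × (Fin r → ℝ))).IsAddLeftInvariant := by
          rw [Measure.volume_eq_prod]
          infer_instance
        exact measure_preimage_add volume (-gv w) _
    _ = ∑ w : ZMod A × (Fin r → ZMod A),
        ∫⁻ z in sq r A, Set.indicator {z | z + gv w ∈ X} (fun _ => (1 : ENNReal)) z := by
        refine sum_congr rfl fun w _ => ?_
        rw [lintegral_indicator (hm w), setLIntegral_one, Measure.restrict_apply (hm w),
          Set.inter_comm]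
    _ = ∫⁻ z in sq r A, ∑ w : ZMod A × (Fin r → ZMod A),
        Set.indicator {z | z + gv w ∈ X} (fun _ => (1 : ENNReal)) z := by
        rw [lintegral_finsetSum]
        intro w _
        exact measurable_const.indicator (hm w)
    _ ≤ ∫⁻ _ in sq r A, ENNReal.ofReal ((A : ℝ) ^ (r + 1) * B) := by
        refine lintegral_mono fun z => ?_
        have h2 : ∑ w : ZMod A × (Fin r → ZMod A),
            Set.indicator {z | z + gv w ∈ X} (fun _ => (1 : ENNReal)) z =
            (((univ.filter fun w : ZMod A × (Fin r → ZMod A) => z + gv w ∈ X).card : ℕ) :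
              ENNReal) := by
          simp only [Set.indicator_apply, Set.mem_ofPred_eq]
          rw [sum_boole]
        rw [h2, ← ENNReal.ofReal_natCast]
        refine ENNReal.ofReal_le_ofReal (h z _ fun w hw => (mem_filter.mp hw).2)
    _ = ENNReal.ofReal ((2 * Real.pi) ^ (r + 1) * B) := by
        rw [setLIntegral_const, vol_sq, ← ENNReal.ofReal_mul (by positivity)]
        congr 1
        rw [div_pow]
        field_simp

/-! ### Exponentials -/

lemma ps_int (A : ℕ) [NeZero A] (k : ℤ) :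
    ps A (k : ZMod A) = Complex.exp (((2 * Real.pi * k / A : ℝ) : ℂ) * Complex.I) := by
  unfold ps
  rw [ZMod.stdAddChar_coe]
  congr 1
  push_cast
  ring

lemma ps_add (A : ℕ) [NeZero A] (x y : ZMod A) : ps A (x + y) = ps A x * ps A y := by
  unfold ps
  exact AddChar.map_add_eq_mul _ _ _

lemma norm_ps (A : ℕ) [NeZero A] (x : ZMod A) : ‖ps A x‖ = 1 := by
  obtain ⟨k, rfl⟩ := ZMod.intCast_surjective x
  rw [ps_int]
  exact Complex.norm_exp_ofReal_mul_I _

/-! ### One piece -/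

lemma shift_ph (A r : ℕ) [NeZero A] (k : ℤ) (m : Fin r → ℤ) (z : ZMod A) (y : Fin r → ZMod A)
    (t : ℝ) (x : Fin r → ℝ) :
    Complex.exp (((∑ l, (x l + 2 * Real.pi * ((y l).val : ℝ) / A) * m l -
      (t + 2 * Real.pi * ((-z).val : ℝ) / A) * k : ℝ) : ℂ) * Complex.I) =
    Complex.exp (((∑ l, x l * m l - t * k : ℝ) : ℂ) * Complex.I) *
      ps A ((k : ZMod A) * z + ∑ l, (m l : ZMod A) * y l) := by
  have h1 : (k : ZMod A) * z + ∑ l, (m l : ZMod A) * y l =
      (((∑ l, m l * ((y l).val : ℤ) - k * ((-z).val : ℤ) : ℤ)) : ZMod A) := by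
    push_cast
    simp only [ZMod.natCast_val, ZMod.cast_id', id]
    ring
  rw [h1, ps_int, ← Complex.exp_add, ← add_mul, ← Complex.ofReal_add]
  congr 3
  push_cast
  simp only [add_mul, sum_add_distrib]
  have e : ∑ l, 2 * Real.pi * ((y l).val : ℝ) / A * (m l : ℝ) =
      2 * Real.pi * (∑ l, (m l : ℝ) * ((y l).val : ℝ)) / A := by
    rw [mul_sum, sum_div]
    exact sum_congr rfl fun l _ => by ring
  rw [e]
  ring

lemma piece (r b' N' : ℕ) (lam B : ℝ) (h : LevB r N' lam B) (hb : (b' : ℝ) ≤ (N' : ℝ) ^ 2)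
    (S : Finset (ℤ × (Fin r → ℤ))) (a : ℤ × (Fin r → ℤ) → ℂ)
    (e : ℤ × (Fin r → ℤ) → ℕ × (Fin r → ℕ)) (β : Fin r → ℤ) (k0 : ℤ)
    (he1 : ∀ ξ ∈ S, (e ξ).1 ∈ Icc (b' + 1) (b' + N')) (he2 : ∀ ξ ∈ S, (e ξ).2 ∈ IJ r N')
    (he3 : ∀ ξ ∈ S, ∀ l, ξ.2 l = β l + (e ξ).2 l)
    (he4 : ∀ ξ ∈ S, ξ.1 ^ 2 + k0 = ((e ξ).1 : ℤ) ^ 2) (he5 : Set.InjOn e S)
    (ha : ∑ ξ ∈ S, ‖a ξ‖ ^ 2 ≤ 1) :
    volume (cube r ∩ {z | lam < ‖FF r S a z.1 z.2‖}) ≤
      ENNReal.ofReal ((2 * Real.pi) ^ (r + 1) * B) := by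
  classical
  obtain ⟨A, hA0, hgood⟩ : ∃ A : ℕ, A ≠ 0 ∧ Good ((N' + 1) ^ 60) A :=
    ⟨((N' + 1) ^ 60).factorial, Nat.factorial_ne_zero _,
      fun k h1 h2 => Nat.dvd_factorial h1 h2⟩
  have : NeZero A := ⟨hA0⟩
  have hAr : (0 : ℝ) < (A : ℝ) ^ (r + 1) := by
    have : (0 : ℝ) < A := by exact_mod_cast Nat.pos_of_ne_zero hA0
    positivity
  have hmaps : ∀ ξ ∈ S, e ξ ∈ Icc (b' + 1) (b' + N') ×ˢ IJ r N' := fun ξ hξ =>
    mem_product.2 ⟨he1 ξ hξ, he2 ξ hξ⟩
  have hcont : Continuous fun z : ℝ × (Fin r → ℝ) => ‖FF r S a z.1 z.2‖ := by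
    unfold FF
    refine (continuous_finsetSum _ fun ξ _ => ?_).norm
    refine continuous_const.mul (Complex.continuous_exp.comp ?_)
    refine Continuous.mul (Complex.continuous_ofReal.comp ?_) continuous_const
    refine Continuous.sub (continuous_finsetSum _ fun l _ => ?_) ?_
    · exact ((continuous_apply l).comp continuous_snd).mul continuous_const
    · exact continuous_fst.mul continuous_const
  have hmeas : MeasurableSet {z : ℝ × (Fin r → ℝ) | lam < ‖FF r S a z.1 z.2‖} :=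
    (isOpen_lt continuous_const hcont).measurableSet
  -- the main estimate
  have hmain : ∀ z : ℝ × (Fin r → ℝ), ∀ s : Finset (ZMod A × (Fin r → ZMod A)),
      (∀ w ∈ s, z + gv w ∈ {z : ℝ × (Fin r → ℝ) | lam < ‖FF r S a z.1 z.2‖}) →
      (s.card : ℝ) ≤ (A : ℝ) ^ (r + 1) * B := by
    intro z s hs
    set c : ℤ × (Fin r → ℤ) → ℂ := fun ξ => a ξ * Complex.exp
      (((∑ l, z.2 l * ξ.2 l - z.1 * ((ξ.1 ^ 2 + ∑ l, ξ.2 l ^ 2 : ℤ) : ℝ) : ℝ) : ℂ) * Complex.I)
      with hc
    have hcn : ∀ ξ, ‖c ξ‖ = ‖a ξ‖ := by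
      intro ξ
      rw [hc]
      simp only
      rw [norm_mul, Complex.norm_exp_ofReal_mul_I, mul_one]
    set a' : ℕ → (Fin r → ℕ) → ℂ := fun n m => ∑ ξ ∈ S.filter (fun ξ => e ξ = (n, m)), c ξ with ha'
    have hnsq : nsq r (Icc (b' + 1) (b' + N')) N' a' ≤ 1 := by
      refine le_trans ?_ ha
      unfold nsq
      rw [← sum_product' (f := fun n m => ‖a' n m‖ ^ 2),
        ← sum_fiberwise_of_maps_to (g := e) hmaps (fun ξ => ‖a ξ‖ ^ 2)]
      refine sum_le_sum fun w _ => ?_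
      have hcard : (S.filter fun ξ => e ξ = (w.1, w.2)).card ≤ 1 := by
        rw [card_le_one]
        intro x hx y hy
        exact he5 (mem_filter.1 hx).1 (mem_filter.1 hy).1
          ((mem_filter.1 hx).2.trans (mem_filter.1 hy).2.symm)
      rcases Nat.le_one_iff_eq_zero_or_eq_one.1 hcard with h0 | h0
      · rw [card_eq_zero] at h0
        simp only [ha', h0, sum_empty, norm_zero]
        rw [zero_pow (by norm_num)]
      · rw [card_eq_one] at h0
        obtain ⟨ξ0, h0⟩ := h0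
        simp only [ha', h0, sum_singleton, hcn]
        exact le_rfl
    have hkey : ∀ w : ZMod A × (Fin r → ZMod A), ‖FF r S a (z + gv w).1 (z + gv w).2‖ =
        ‖F A r (Icc (b' + 1) (b' + N')) N' a' w.1 (fun l => w.2 l + 2 * (β l : ZMod A) * w.1)‖ := by
      intro w
      have h1 : F A r (Icc (b' + 1) (b' + N')) N' a' w.1
          (fun l => w.2 l + 2 * (β l : ZMod A) * w.1) = ∑ ξ ∈ S, c ξ *
          ps A ((((e ξ).1 ^ 2 + ∑ l, (e ξ).2 l ^ 2 : ℕ) : ZMod A) * w.1 +
            ∑ l, ((e ξ).2 l : ZMod A) * (w.2 l + 2 * (β l : ZMod A) * w.1)) := by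
        unfold F
        rw [← sum_product' (f := fun n (m : Fin r → ℕ) => a' n m *
          ps A (((n ^ 2 + ∑ l, m l ^ 2 : ℕ) : ZMod A) * w.1 +
            ∑ l, (m l : ZMod A) * (w.2 l + 2 * (β l : ZMod A) * w.1))),
          ← sum_fiberwise_of_maps_to (g := e) hmaps (fun ξ => c ξ *
          ps A ((((e ξ).1 ^ 2 + ∑ l, (e ξ).2 l ^ 2 : ℕ) : ZMod A) * w.1 +
            ∑ l, ((e ξ).2 l : ZMod A) * (w.2 l + 2 * (β l : ZMod A) * w.1)))]
        refine sum_congr rfl fun v _ => ?_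
        simp only [ha']
        rw [sum_mul]
        refine sum_congr rfl fun ξ hξ => ?_
        have h2 : e ξ = v := (mem_filter.1 hξ).2
        rw [h2]
      have h2 : FF r S a (z + gv w).1 (z + gv w).2 =
          ps A (((∑ l, β l ^ 2 - k0 : ℤ) : ZMod A) * w.1 + ∑ l, (β l : ZMod A) * w.2 l) *
          F A r (Icc (b' + 1) (b' + N')) N' a' w.1
            (fun l => w.2 l + 2 * (β l : ZMod A) * w.1) := by
        rw [h1, mul_sum]
        unfold FF
        refine sum_congr rfl fun ξ hξ => ?_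
        have h3 := shift_ph A r (ξ.1 ^ 2 + ∑ l, ξ.2 l ^ 2) ξ.2 w.1 w.2 z.1 z.2
        have h4 : (((∑ l, (z + gv w).2 l * (ξ.2 l : ℝ) -
            (z + gv w).1 * ((ξ.1 : ℝ) ^ 2 + ∑ l, (ξ.2 l : ℝ) ^ 2) : ℝ)) : ℂ) =
            ((∑ l, (z.2 l + 2 * Real.pi * ((w.2 l).val : ℝ) / A) * (ξ.2 l : ℝ) -
            (z.1 + 2 * Real.pi * ((-w.1).val : ℝ) / A) *
              ((ξ.1 ^ 2 + ∑ l, ξ.2 l ^ 2 : ℤ) : ℝ) : ℝ) : ℂ) := by
          congr 2
          congr 1
          push_cast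
          rfl
        have h5 : (ξ.1 ^ 2 + ∑ l, ξ.2 l ^ 2 : ℤ) = ((e ξ).1 : ℤ) ^ 2 - k0 +
            ∑ l, (β l + (e ξ).2 l) ^ 2 := by
          have := he4 ξ hξ
          have h6 : ∑ l, ξ.2 l ^ 2 = ∑ l, (β l + ((e ξ).2 l : ℤ)) ^ 2 :=
            sum_congr rfl fun l _ => by rw [he3 ξ hξ l]
          rw [h6]
          linarith
        have h7 : ∑ l, ((ξ.2 l : ℤ) : ZMod A) * w.2 l =
            ∑ l, ((β l : ZMod A) + ((e ξ).2 l : ZMod A)) * w.2 l :=
          sum_congr rfl fun l _ => by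
            rw [he3 ξ hξ l]
            push_cast
            rfl
        have h9 : ps A (((ξ.1 ^ 2 + ∑ l, ξ.2 l ^ 2 : ℤ) : ZMod A) * w.1 +
            ∑ l, (ξ.2 l : ZMod A) * w.2 l) =
            ps A (((∑ l, β l ^ 2 - k0 : ℤ) : ZMod A) * w.1 + ∑ l, (β l : ZMod A) * w.2 l) *
            ps A ((((e ξ).1 ^ 2 + ∑ l, (e ξ).2 l ^ 2 : ℕ) : ZMod A) * w.1 +
              ∑ l, ((e ξ).2 l : ZMod A) * (w.2 l + 2 * (β l : ZMod A) * w.1)) := by
          rw [← ps_add, h5, h7]
          congr 1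
          push_cast
          simp only [add_mul, sub_mul, mul_add, add_sq, sum_add_distrib, sum_mul]
          have h8 : ∑ l, ((e ξ).2 l : ZMod A) * (2 * (β l : ZMod A) * w.1) =
              ∑ l, 2 * (β l : ZMod A) * ((e ξ).2 l : ZMod A) * w.1 :=
            sum_congr rfl fun l _ => by ring
          rw [h8]
          ring
        rw [h4, h3, h9, hc]
        ring
      rw [h2, norm_mul, norm_ps, one_mul]
    have hcardle : s.card ≤ (lev A r (Icc (b' + 1) (b' + N')) N' a' lam).card := by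
      refine card_le_card_of_injOn
        (fun w => (w.1, fun l => w.2 l + 2 * (β l : ZMod A) * w.1)) ?_ ?_
      · intro w hw
        have h1 : lam < ‖FF r S a (z + gv w).1 (z + gv w).2‖ := hs w hw
        rw [hkey w] at h1
        unfold lev
        rw [coe_filter]
        exact ⟨mem_univ _, h1.le⟩
      · intro w _ v _ hwv
        simp only [Prod.mk.injEq] at hwv
        obtain ⟨h1, h2⟩ := hwv
        refine Prod.ext h1 (funext fun l => ?_)
        have h3 := congrFun h2 l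
        simp only [h1] at h3
        exact add_right_cancel h3
    have h9 := h b' A hb hgood a' hnsq
    unfold mu at h9
    rw [div_le_iff₀ hAr] at h9
    have h10 : (s.card : ℝ) ≤ ((lev A r (Icc (b' + 1) (b' + N')) N' a' lam).card : ℝ) := by
      exact_mod_cast hcardle
    linarith
  have hB : 0 ≤ B := by
    have h9 := h b' A hb hgood (fun _ _ => 0) (by
      unfold nsq
      simp)
    refine le_trans ?_ h9
    unfold mu
    positivity
  exact tile r A _ hmeas B hB hmain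

lemma nonneg (r N' : ℕ) (lam B : ℝ) (h : LevB r N' lam B) : 0 ≤ B := by
  have : NeZero ((N' + 1) ^ 60).factorial := ⟨Nat.factorial_ne_zero _⟩
  have h9 := h 0 ((N' + 1) ^ 60).factorial (by simp)
    (fun k h1 h2 => Nat.dvd_factorial h1 h2) (fun _ _ => 0) (by
    unfold nsq
    simp)
  refine le_trans ?_ h9
  unfold mu
  positivity

end LevReal

open LevReal in
/-- Y1: transfer of level set bounds to the cube. -/
theorem lev_real (r N' : ℕ) (lam B : ℝ) (hlam : 0 < lam) (h : LevB r N' lam B)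
    (b : Fin (r + 1) → ℝ) (N : ℝ) (hN : 0 < N) (hN' : N + 2 ≤ N')
    (hb : |b 0| + N + 2 ≤ (N' : ℝ) ^ 2) (a : ℤ × (Fin r → ℤ) → ℂ)
    (ha : ∑ ξ ∈ box r b N, ‖a ξ‖ ^ 2 ≤ 1) :
    (volume {z ∈ cube r | 3 * lam < ‖FF r (box r b N) a z.1 z.2‖}).toReal ≤
      3 * (2 * Real.pi) ^ (r + 1) * B := by
  classical
  have hpi : (0 : ℝ) < 2 * Real.pi := by have := Real.pi_pos; positivity
  have hB := nonneg r N' lam B h
  set S := box r b N with hS
  set n1 : ℤ := ⌈b 0⌉ with hn1
  set n2 : ℤ := ⌊b 0 + N⌋ with hn2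
  set β : Fin r → ℤ := fun l => ⌈b l.succ⌉ with hβ
  have key : ∀ x : ℝ, ⌊x + N⌋ - ⌈x⌉ < (N' : ℤ) := by
    intro x
    have h1 := Int.floor_le (x + N)
    have h2 := Int.le_ceil x
    have h3 : ((⌊x + N⌋ - ⌈x⌉ : ℤ) : ℝ) < ((N' : ℤ) : ℝ) := by
      push_cast
      linarith
    exact_mod_cast h3
  have hn : n2 - n1 < N' := key (b 0)
  have hmem : ∀ ξ ∈ S, n1 ≤ ξ.1 ∧ ξ.1 ≤ n2 ∧ ∀ l, β l ≤ ξ.2 l ∧ ξ.2 l - β l < N' := by
    intro ξ hξ
    rw [hS] at hξ
    unfold Pool.Agent.Helper64.AS.box at hξ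
    rw [mem_product, mem_Icc, Fintype.mem_piFinset] at hξ
    refine ⟨hξ.1.1, hξ.1.2, fun l => ?_⟩
    have h1 := hξ.2 l
    rw [mem_Icc] at h1
    have h2 := key (b l.succ)
    refine ⟨h1.1, ?_⟩
    show ξ.2 l - ⌈b l.succ⌉ < N'
    linarith [h1.2]
  have hb1 : (((max n1 1 - 1).toNat : ℕ) : ℝ) ≤ (N' : ℝ) ^ 2 := by
    have h0 : 0 ≤ max n1 1 - 1 := by have := le_max_right n1 1; omega
    have h1 : (((max n1 1 - 1).toNat : ℕ) : ℝ) = ((max n1 1 - 1 : ℤ) : ℝ) := by
      exact_mod_cast Int.toNat_of_nonneg h0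
    rw [h1]
    have h2 := le_abs_self (b 0)
    have h3 := Int.ceil_lt_add_one (b 0)
    rcases max_choice n1 1 with h4 | h4
    · rw [h4]
      push_cast
      linarith
    · rw [h4]
      push_cast
      nlinarith
  have hb3 : (((max (-n2) 1 - 1).toNat : ℕ) : ℝ) ≤ (N' : ℝ) ^ 2 := by
    have h0 : 0 ≤ max (-n2) 1 - 1 := by have := le_max_right (-n2) 1; omega
    have h1 : (((max (-n2) 1 - 1).toNat : ℕ) : ℝ) = ((max (-n2) 1 - 1 : ℤ) : ℝ) := by
      exact_mod_cast Int.toNat_of_nonneg h0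
    rw [h1]
    have h2 := neg_abs_le (b 0)
    have h3 := Int.lt_floor_add_one (b 0 + N)
    rcases max_choice (-n2) 1 with h4 | h4
    · rw [h4]
      push_cast
      linarith
    · rw [h4]
      push_cast
      nlinarith
  set S1 := S.filter fun ξ => 0 < ξ.1 with hS1
  set S2 := S.filter fun ξ => ξ.1 = 0 with hS2
  set S3 := S.filter fun ξ => ξ.1 < 0 with hS3
  have hsum : ∀ S' : Finset (ℤ × (Fin r → ℤ)), S' ⊆ S → ∑ ξ ∈ S', ‖a ξ‖ ^ 2 ≤ 1 := fun S' hS' =>
    (sum_le_sum_of_subset_of_nonneg hS' fun _ _ _ => sq_nonneg _).trans ha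
  have hV1 : volume (cube r ∩ {z | lam < ‖FF r S1 a z.1 z.2‖}) ≤
      ENNReal.ofReal ((2 * Real.pi) ^ (r + 1) * B) := by
    refine piece r ((max n1 1 - 1).toNat) N' lam B h hb1 S1 a
      (fun ξ => (ξ.1.toNat, fun l => (ξ.2 l - β l).toNat)) β 0 ?_ ?_ ?_ ?_ ?_
      (hsum S1 (filter_subset _ _))
    · intro ξ hξ
      have h1 := hmem ξ (mem_filter.1 hξ).1
      have h2 := (mem_filter.1 hξ).2
      rw [mem_Icc]
      obtain ⟨h3, h4, -⟩ := h1
      simp only
      omega
    · intro ξ hξ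
      have h1 := hmem ξ (mem_filter.1 hξ).1
      rw [Fintype.mem_piFinset]
      intro l
      have h2 := h1.2.2 l
      rw [mem_range]
      simp only
      omega
    · intro ξ hξ l
      have h1 := (hmem ξ (mem_filter.1 hξ).1).2.2 l
      simp only
      omega
    · intro ξ hξ
      have h2 := (mem_filter.1 hξ).2
      simp only
      rw [Int.toNat_of_nonneg h2.le, add_zero]
    · intro ξ hξ η hη hh
      have h1 := hmem ξ (mem_filter.1 hξ).1
      have h2 := (mem_filter.1 hξ).2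
      have h3 := hmem η (mem_filter.1 hη).1
      have h4 := (mem_filter.1 hη).2
      simp only [Prod.mk.injEq] at hh
      refine Prod.ext (by omega) (funext fun l => ?_)
      have h5 := congrFun hh.2 l
      have h6 := h1.2.2 l
      have h7 := h3.2.2 l
      omega
  have hV2 : volume (cube r ∩ {z | lam < ‖FF r S2 a z.1 z.2‖}) ≤
      ENNReal.ofReal ((2 * Real.pi) ^ (r + 1) * B) := by
    refine piece r 0 N' lam B h (by simp) S2 a
      (fun ξ => (1, fun l => (ξ.2 l - β l).toNat)) β 1 ?_ ?_ ?_ ?_ ?_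
      (hsum S2 (filter_subset _ _))
    · intro ξ hξ
      have h1 : (1 : ℝ) ≤ N' := by linarith
      have h2 : 1 ≤ N' := by exact_mod_cast h1
      rw [mem_Icc]
      simp only
      omega
    · intro ξ hξ
      have h1 := hmem ξ (mem_filter.1 hξ).1
      rw [Fintype.mem_piFinset]
      intro l
      have h2 := h1.2.2 l
      rw [mem_range]
      simp only
      omega
    · intro ξ hξ l
      have h1 := (hmem ξ (mem_filter.1 hξ).1).2.2 l
      simp only
      omega
    · intro ξ hξ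
      have h2 := (mem_filter.1 hξ).2
      simp only
      rw [h2]
      norm_num
    · intro ξ hξ η hη hh
      have h1 := hmem ξ (mem_filter.1 hξ).1
      have h2 := (mem_filter.1 hξ).2
      have h3 := hmem η (mem_filter.1 hη).1
      have h4 := (mem_filter.1 hη).2
      simp only [Prod.mk.injEq] at hh
      refine Prod.ext (by omega) (funext fun l => ?_)
      have h5 := congrFun hh.2 l
      have h6 := h1.2.2 l
      have h7 := h3.2.2 l
      omega
  have hV3 : volume (cube r ∩ {z | lam < ‖FF r S3 a z.1 z.2‖}) ≤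
      ENNReal.ofReal ((2 * Real.pi) ^ (r + 1) * B) := by
    refine piece r ((max (-n2) 1 - 1).toNat) N' lam B h hb3 S3 a
      (fun ξ => ((-ξ.1).toNat, fun l => (ξ.2 l - β l).toNat)) β 0 ?_ ?_ ?_ ?_ ?_
      (hsum S3 (filter_subset _ _))
    · intro ξ hξ
      have h1 := hmem ξ (mem_filter.1 hξ).1
      have h2 := (mem_filter.1 hξ).2
      rw [mem_Icc]
      obtain ⟨h3, h4, -⟩ := h1
      simp only
      omega
    · intro ξ hξ
      have h1 := hmem ξ (mem_filter.1 hξ).1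
      rw [Fintype.mem_piFinset]
      intro l
      have h2 := h1.2.2 l
      rw [mem_range]
      simp only
      omega
    · intro ξ hξ l
      have h1 := (hmem ξ (mem_filter.1 hξ).1).2.2 l
      simp only
      omega
    · intro ξ hξ
      have h2 := (mem_filter.1 hξ).2
      simp only
      rw [Int.toNat_of_nonneg (by omega), add_zero]
      ring
    · intro ξ hξ η hη hh
      have h1 := hmem ξ (mem_filter.1 hξ).1
      have h2 := (mem_filter.1 hξ).2
      have h3 := hmem η (mem_filter.1 hη).1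
      have h4 := (mem_filter.1 hη).2
      simp only [Prod.mk.injEq] at hh
      refine Prod.ext (by omega) (funext fun l => ?_)
      have h5 := congrFun hh.2 l
      have h6 := h1.2.2 l
      have h7 := h3.2.2 l
      omega
  have hsplit : ∀ t x, FF r S a t x = FF r S1 a t x + FF r S2 a t x + FF r S3 a t x := by
    intro t x
    unfold FF
    rw [← sum_filter_add_sum_filter_not S (fun ξ => 0 < ξ.1),
      ← sum_filter_add_sum_filter_not (S.filter fun ξ => ¬ 0 < ξ.1) (fun ξ => ξ.1 = 0),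
      filter_filter, filter_filter, ← add_assoc]
    congr 1
    · congr 1
      apply sum_congr _ (fun _ _ => rfl)
      ext ξ
      simp only [hS2, mem_filter, and_congr_right_iff]
      intro _
      omega
    · apply sum_congr _ (fun _ _ => rfl)
      ext ξ
      simp only [hS3, mem_filter, and_congr_right_iff]
      intro _
      omega
  have hsub : {z ∈ cube r | 3 * lam < ‖FF r S a z.1 z.2‖} ⊆
      (cube r ∩ {z | lam < ‖FF r S1 a z.1 z.2‖}) ∪ (cube r ∩ {z | lam < ‖FF r S2 a z.1 z.2‖}) ∪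
        (cube r ∩ {z | lam < ‖FF r S3 a z.1 z.2‖}) := by
    rintro z ⟨hz, hz2⟩
    by_contra hcon
    simp only [Set.mem_union, Set.mem_inter_iff, hz, true_and, Set.mem_ofPred_eq, not_or,
      not_lt] at hcon
    rw [hsplit] at hz2
    have h2 := norm_add₃_le (a := FF r S1 a z.1 z.2) (b := FF r S2 a z.1 z.2)
      (c := FF r S3 a z.1 z.2)
    linarith [hcon.1.1, hcon.1.2, hcon.2]
  have hfin : volume {z ∈ cube r | 3 * lam < ‖FF r S a z.1 z.2‖} ≤
      ENNReal.ofReal (3 * (2 * Real.pi) ^ (r + 1) * B) := by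
    have hX : 0 ≤ (2 * Real.pi) ^ (r + 1) * B := by positivity
    refine (measure_mono hsub).trans ((measure_union_le _ _).trans ?_)
    refine (add_le_add ((measure_union_le _ _).trans (add_le_add hV1 hV2)) hV3).trans ?_
    rw [← ENNReal.ofReal_add hX hX, ← ENNReal.ofReal_add (by positivity) hX]
    refine ENNReal.ofReal_le_ofReal (le_of_eq ?_)
    ring
  refine ENNReal.toReal_le_of_le_ofReal (by positivity) hfin

end Stx
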